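import Pool.Agent.Work.MP_2b8540_co.Numeric

/-!
# Union-generating families smaller than `(2 - o(1)) 2 ^ n` are made of random-like pairs

Let `c < 2`. If a family `F` of at most `c 2 ^ n` subsets of a `2n`-set generates (almost) all
subsets as unions of two members, then at least a proportion
`1 - (c - √(3 - c² / 2))² / 9` of all subsets (more than `0.967` for `c = 7 / 4`, at least `8 / 9`
for every `√2 ≤ c < 2`) are unions of two members in a random-like way only: all their
representations `a ∪ b` look, on any bounded number of prescribed test sets, like unions of two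
independent random sets of density `1 - 1 / √2`.
-/

namespace Pool.Agent.Results.MP_455262_co.RandomLikeReduction

open Finset

/-- The sets which are unions of two (not necessarily distinct) members of `F`. -/
noncomputable def unions {N : ℕ} (F : Finset (Finset (Fin N))) : Finset (Finset (Fin N)) :=
  open Classical in
  (Finset.univ : Finset (Finset (Fin N))).filter fun S => ∃ a ∈ F, ∃ b ∈ F, a ∪ b = S

/-- `a` has density `1 - 1 / √2` on the test set `X`, up to an error `δ N`. -/
def Typical {N : ℕ} (δ : ℝ) (X a : Finset (Fin N)) : Prop :=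
  |((a ∩ X).card : ℝ) - (1 - 1 / √2) * X.card| ≤ δ * N

/-- On the test set `X` the pair `a, b` looks like a pair of independent random sets of density
`1 - 1 / √2`: both have this density and the intersection has the density `(1 - 1 / √2) ^ 2`, up to
errors `δ N`. -/
def RandomLike {N : ℕ} (δ : ℝ) (X a b : Finset (Fin N)) : Prop :=
  Typical δ X a ∧ Typical δ X b ∧
    |((a ∩ b ∩ X).card : ℝ) - (1 - 1 / √2) ^ 2 * X.card| ≤ δ * N

/-- The sets which are unions of two members of `A` and all of whose representations as unions of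
two members of `F` are random-like on every test set `X ∈ 𝒳`. -/
noncomputable def onlyRandomLike {N : ℕ} (F A 𝒳 : Finset (Finset (Fin N))) (δ : ℝ) :
    Finset (Finset (Fin N)) :=
  open Classical in
  (Finset.univ : Finset (Finset (Fin N))).filter fun S =>
    (∃ a ∈ A, ∃ b ∈ A, a ∪ b = S) ∧
      ∀ a ∈ F, ∀ b ∈ F, a ∪ b = S → ∀ X ∈ 𝒳, RandomLike δ X a b

private lemma q_eq : EM.q = 1 / √2 := by
  unfold EM.q
  have h : √2 * √2 = 2 := Real.mul_self_sqrt (by norm_num)
  have h0 : √2 ≠ 0 := by positivity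
  field_simp
  nlinarith

/-- **Theorem.** Let `0 < c < 2`, `δ, η > 0` and `r` a natural number. There are `γ > 0` and `n₀`
such that for all `n ≥ n₀`, every family `F` of at most `c 2 ^ n` subsets of a `2n`-set whose
unions of two members are all but at most `γ 4 ^ n` of the `4 ^ n` subsets, and any family `𝒳` of
at most `r` test sets, there is `A ⊆ F` such that all members of `A` are typical on all test sets,
`|A| ≥ ((c + 2 √(3 - c² / 2)) / 3 - η) 2 ^ n`, and the number of the sets which are unions of two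
members of `A` and have only random-like representations in `F` is at least
`(1 - (c - √(3 - c² / 2))² / 9 - η) 4 ^ n` and at least
`(1 - η - (c - |A| / 2 ^ n)² / 4) 4 ^ n`. -/
theorem result : ∀ c δ η : ℝ, 0 < c → c < 2 → 0 < δ → 0 < η → ∀ r : ℕ,
    ∃ γ : ℝ, 0 < γ ∧ ∃ n₀ : ℕ, ∀ n ≥ n₀, ∀ F : Finset (Finset (Fin (2 * n))),
      (F.card : ℝ) ≤ c * 2 ^ n → (1 - γ) * 4 ^ n ≤ ((unions F).card : ℝ) →
      ∀ 𝒳 : Finset (Finset (Fin (2 * n))), 𝒳.card ≤ r →
      ∃ A ⊆ F, (∀ a ∈ A, ∀ X ∈ 𝒳, Typical δ X a) ∧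
        ((c + 2 * √(3 - c ^ 2 / 2)) / 3 - η) * 2 ^ n ≤ (A.card : ℝ) ∧
        (1 - (c - √(3 - c ^ 2 / 2)) ^ 2 / 9 - η) * 4 ^ n ≤
          ((onlyRandomLike F A 𝒳 δ).card : ℝ) ∧
        (1 - η - (c - A.card / 2 ^ n) ^ 2 / 4) * 4 ^ n ≤
          ((onlyRandomLike F A 𝒳 δ).card : ℝ) := by
  intro c δ η hc hc2 hδ hη r
  obtain ⟨γ, hγ, n₀, h⟩ := EM.structure_full hc hc2 hδ hη r
  refine ⟨γ, hγ, n₀, fun n hn F hF hcov 𝒳 h𝒳 => ?_⟩
  obtain ⟨A, hAF, h1, h2, h3, h4⟩ := h n hn F hF hcov 𝒳 h𝒳
  have hg : onlyRandomLike F A 𝒳 δ = EM.goodSets F A 𝒳 δ := by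
    ext S
    unfold onlyRandomLike EM.goodSets RandomLike Typical EM.RT
    simp only [q_eq, Finset.mem_filter, Finset.mem_univ, true_and]
  refine ⟨A, hAF, ?_, h2, ?_, ?_⟩
  · intro a ha X hX
    have := h1 a ha X hX
    rw [q_eq] at this
    exact this
  · rw [hg]; exact h3
  · rw [hg]; exact h4

end Pool.Agent.Results.MP_455262_co.RandomLikeReduction
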